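import Mathlib

/-!
# A winding number contradiction
-/

set_option autoImplicit false

namespace Pool.Agent.Helper30.S1

open Complex Metric

/-- A continuous logarithm on the closed disc. -/
theorem exists_log (S : ℂ → ℂ) (hS : ContinuousOn S (closedBall 0 1))
    (h0 : ∀ c ∈ closedBall (0 : ℂ) 1, S c ≠ 0) :
    ∃ l : ℂ → ℂ, ContinuousOn l (closedBall 0 1) ∧
      ∀ z ∈ closedBall (0 : ℂ) 1, Complex.exp (l z) = S z := by
  classical
  have hcomp : IsCompact (closedBall (0 : ℂ) 1) := isCompact_closedBall 0 1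
  obtain ⟨m, hm, hmin⟩ : ∃ m : ℝ, 0 < m ∧ ∀ z ∈ closedBall (0 : ℂ) 1, m ≤ ‖S z‖ := by
    obtain ⟨z, hz, hzm⟩ := hcomp.exists_isMinOn ⟨0, by simp⟩ hS.norm
    exact ⟨‖S z‖, norm_pos_iff.mpr (h0 z hz), fun w hw => hzm hw⟩
  have huc : UniformContinuousOn S (closedBall (0 : ℂ) 1) :=
    hcomp.uniformContinuousOn_of_continuous hS
  rw [Metric.uniformContinuousOn_iff] at huc
  obtain ⟨δ, hδ, hδ'⟩ := huc m hm
  obtain ⟨N, hN⟩ := exists_nat_gt (1 / δ)
  have hN0 : 0 < (N : ℝ) := lt_trans (by positivity) hN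
  have hNδ : 1 / (N : ℝ) < δ := by
    rw [div_lt_iff₀ hN0]
    rw [div_lt_iff₀ hδ] at hN
    linarith
  have hmem : ∀ (z : ℂ), z ∈ closedBall (0 : ℂ) 1 → ∀ j : ℕ, j ≤ N →
      ((j : ℂ) * z / N) ∈ closedBall (0 : ℂ) 1 := by
    intro z hz j hj
    rw [mem_closedBall_zero_iff] at hz ⊢
    rw [norm_div, norm_mul, Complex.norm_natCast, Complex.norm_natCast, div_le_one hN0]
    have : (j : ℝ) ≤ N := by exact_mod_cast hj
    calc (j : ℝ) * ‖z‖ ≤ j * 1 := by gcongr
      _ ≤ N := by linarith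
  have hratio : ∀ (z : ℂ), z ∈ closedBall (0 : ℂ) 1 → ∀ j : ℕ, j < N →
      S (((j + 1 : ℕ) : ℂ) * z / N) / S ((j : ℂ) * z / N) ∈ slitPlane := by
    intro z hz j hj
    have ha := hmem z hz (j + 1) hj
    have hb' := hmem z hz j hj.le
    have hne := h0 _ hb'
    have hd : dist (((j + 1 : ℕ) : ℂ) * z / N) ((j : ℂ) * z / N) < δ := by
      rw [dist_eq_norm]
      have : ((j + 1 : ℕ) : ℂ) * z / N - (j : ℂ) * z / N = z / N := by
        push_cast; ring
      rw [this, norm_div, Complex.norm_natCast]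
      rw [mem_closedBall_zero_iff] at hz
      calc ‖z‖ / (N : ℝ) ≤ 1 / N := by gcongr
        _ < δ := hNδ
    have h1 := hδ' _ ha _ hb' hd
    rw [dist_eq_norm] at h1
    have h2 : ‖S (((j + 1 : ℕ) : ℂ) * z / N) / S ((j : ℂ) * z / N) - 1‖ < 1 := by
      have : S (((j + 1 : ℕ) : ℂ) * z / N) / S ((j : ℂ) * z / N) - 1 =
          (S (((j + 1 : ℕ) : ℂ) * z / N) - S ((j : ℂ) * z / N)) / S ((j : ℂ) * z / N) := by
        rw [sub_div, div_self hne]
      rw [this, norm_div, div_lt_one (norm_pos_iff.mpr hne)]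
      exact lt_of_lt_of_le h1 (hmin _ hb')
    left
    have h3 := Complex.abs_re_le_norm
      (S (((j + 1 : ℕ) : ℂ) * z / N) / S ((j : ℂ) * z / N) - 1)
    rw [Complex.sub_re, Complex.one_re] at h3
    have h4 := abs_lt.mp (lt_of_le_of_lt h3 h2)
    linarith [h4.1]
  set l : ℂ → ℂ := fun z => ∑ j ∈ Finset.range N,
    Complex.log (S (((j + 1 : ℕ) : ℂ) * z / N) / S ((j : ℂ) * z / N)) with hl
  have hScont : ∀ j : ℕ, j ≤ N →
      ContinuousOn (fun z : ℂ => S ((j : ℂ) * z / N)) (closedBall (0 : ℂ) 1) := by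
    intro j hj
    refine hS.comp (by fun_prop) ?_
    intro z hz
    exact hmem z hz j hj
  have hlc : ContinuousOn l (closedBall (0 : ℂ) 1) := by
    rw [hl]
    refine continuousOn_finsetSum _ ?_
    intro j hj
    rw [Finset.mem_range] at hj
    refine ContinuousOn.clog ?_ (fun z hz => hratio z hz j hj)
    exact (hScont (j + 1) hj).div (hScont j hj.le) (fun z hz => h0 _ (hmem z hz j hj.le))
  have hexp : ∀ z ∈ closedBall (0 : ℂ) 1, Complex.exp (l z) = S z / S 0 := by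
    intro z hz
    have hNc : (N : ℂ) ≠ 0 := by
      have : (N : ℝ) ≠ 0 := hN0.ne'
      exact_mod_cast this
    have key : ∀ k : ℕ, k ≤ N → Complex.exp (∑ j ∈ Finset.range k,
        Complex.log (S (((j + 1 : ℕ) : ℂ) * z / N) / S ((j : ℂ) * z / N))) =
        S ((k : ℂ) * z / N) / S 0 := by
      intro k
      induction k with
      | zero =>
        intro _
        have := h0 0 (by simp)
        simp [div_self this]
      | succ k ih =>
        intro hk
        have hne := h0 _ (hmem z hz k (by omega))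
        have hne' := h0 _ (hmem z hz (k + 1) hk)
        rw [Finset.sum_range_succ, Complex.exp_add, ih (by omega),
          Complex.exp_log (div_ne_zero hne' hne)]
        field_simp
    have := key N le_rfl
    rw [show (N : ℂ) * z / N = z by field_simp] at this
    exact this
  have h00 := h0 0 (by simp)
  refine ⟨fun z => l z + Complex.log (S 0), hlc.add continuousOn_const, fun z hz => ?_⟩
  rw [Complex.exp_add, hexp z hz, Complex.exp_log h00, div_mul_cancel₀ _ h00]

/-- A continuous function with values in `2πiℤ` is constant. -/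
theorem eq_of_exp_eq_one {a b : ℝ} (g : ℝ → ℂ) (hg : ContinuousOn g (Set.Icc a b))
    (h1 : ∀ t ∈ Set.Icc a b, Complex.exp (g t) = 1) {s t : ℝ} (hs : s ∈ Set.Icc a b)
    (ht : t ∈ Set.Icc a b) : g s = g t := by
  have hpi := Real.pi_pos
  have key : ∀ s ∈ Set.Icc a b, ∃ n : ℤ, g s = n * (2 * Real.pi * I) := fun s hs =>
    Complex.exp_eq_one_iff.1 (h1 s hs)
  have him : ∀ s ∈ Set.Icc a b, ∀ n : ℤ, g s = n * (2 * Real.pi * I) →
      (g s).im = n * (2 * Real.pi) := by
    intro s _ n hn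
    rw [hn]
    simp
  have hcont : ContinuousOn (fun t => (g t).im) (Set.uIcc s t) :=
    (Complex.continuous_im.comp_continuousOn hg).mono
      (by
        intro r hr
        rw [Set.mem_uIcc] at hr
        rcases hr with hr | hr
        · exact ⟨hs.1.trans hr.1, hr.2.trans ht.2⟩
        · exact ⟨ht.1.trans hr.1, hr.2.trans hs.2⟩)
  obtain ⟨m, hm⟩ := key s hs
  obtain ⟨n, hn⟩ := key t ht
  by_contra hne
  have hmn : m ≠ n := by
    rintro rfl
    exact hne (hm.trans hn.symm)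
  have hivt := intermediate_value_uIcc hcont
  -- a value in between
  have hval : ∃ k : ℤ, ((k : ℝ) + 1 / 2) * (2 * Real.pi) ∈
      Set.uIcc ((g s).im) ((g t).im) := by
    rw [him s hs m hm, him t ht n hn]
    rcases lt_or_gt_of_ne hmn with h | h
    · refine ⟨m, ?_⟩
      rw [Set.mem_uIcc]
      left
      have h2 : (m : ℝ) + 1 ≤ n := by exact_mod_cast h
      constructor <;> nlinarith
    · refine ⟨n, ?_⟩
      rw [Set.mem_uIcc]
      right
      have h2 : (n : ℝ) + 1 ≤ m := by exact_mod_cast h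
      constructor <;> nlinarith
  obtain ⟨k, hk⟩ := hval
  obtain ⟨r, hr, hrk⟩ := hivt hk
  have hr' : r ∈ Set.Icc a b := by
    rw [Set.mem_uIcc] at hr
    rcases hr with hr | hr
    · exact ⟨hs.1.trans hr.1, hr.2.trans ht.2⟩
    · exact ⟨ht.1.trans hr.1, hr.2.trans hs.2⟩
  obtain ⟨j, hj⟩ := key r hr'
  have h3 := him r hr' j hj
  simp only at hrk
  rw [hrk] at h3
  have h4 : ((2 * k + 1 : ℤ) : ℝ) = ((2 * j : ℤ) : ℝ) := by
    push_cast
    have : Real.pi * (2 * k + 1) = Real.pi * (2 * j) := by linarith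
    exact mul_left_cancel₀ hpi.ne' this
  have h5 : (2 * k + 1 : ℤ) = 2 * j := by exact_mod_cast h4
  omega

theorem exists_zero (ξ : ℂ → ℂ → ℂ)
    (hξ : ContinuousOn (fun p : ℂ × ℂ => ξ p.1 p.2) (closedBall 0 1 ×ˢ sphere 0 1))
    (hev : ∀ c ∈ closedBall (0 : ℂ) 1, ∀ u ∈ sphere (0 : ℂ) 1, ξ c (-u) = ξ c u)
    (hb : ∀ c u : ℂ, ‖c‖ = 1 → ‖u‖ = 1 → ξ c u = c ^ 2 * ξ 1 ((c⁻¹) ^ 2 * u)) :
    ∃ c ∈ closedBall (0 : ℂ) 1, ∃ u ∈ sphere (0 : ℂ) 1, ξ c u = 0 := by
  by_contra hcon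
  push Not at hcon
  have hpi := Real.pi_pos
  have h1b : (1 : ℂ) ∈ closedBall (0 : ℂ) 1 := by simp
  have h1s : (1 : ℂ) ∈ sphere (0 : ℂ) 1 := by simp
  have hes : ∀ t : ℝ, Complex.exp (t * I) ∈ sphere (0 : ℂ) 1 := by
    intro t
    rw [mem_sphere_zero_iff_norm, Complex.norm_exp_ofReal_mul_I]
  have heb : ∀ t : ℝ, Complex.exp (t * I) ∈ closedBall (0 : ℂ) 1 := fun t =>
    sphere_subset_closedBall (hes t)
  -- the logarithm of `ξ c 1`
  obtain ⟨lam, hlc, hle⟩ := exists_log (fun c => ξ c 1)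
    (hξ.comp (f := fun c : ℂ => (c, (1 : ℂ))) (by fun_prop) (fun c hc => ⟨hc, h1s⟩))
    (fun c hc => hcon c hc 1 h1s)
  -- the logarithm of `ξ 1 (e^{it})`
  obtain ⟨l2, hl2c, hl2e⟩ := exists_log
    (fun z => ξ 1 (Complex.exp (((8 * Real.pi * z.re : ℝ) : ℂ) * I)))
    (hξ.comp (f := fun z : ℂ => ((1 : ℂ), Complex.exp (((8 * Real.pi * z.re : ℝ) : ℂ) * I)))
      (Continuous.continuousOn (by fun_prop)) (fun z _ => ⟨h1b, hes _⟩))
    (fun z _ => hcon 1 h1b _ (hes _))
  set φ : ℝ → ℂ := fun t => l2 ((t / (8 * Real.pi) : ℝ) : ℂ) with hφ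
  have hmem : ∀ t ∈ Set.Icc (-(8 * Real.pi)) (8 * Real.pi),
      ((t / (8 * Real.pi) : ℝ) : ℂ) ∈ closedBall (0 : ℂ) 1 := by
    intro t ht
    rw [mem_closedBall_zero_iff, Complex.norm_real, Real.norm_eq_abs, abs_le]
    constructor
    · rw [le_div_iff₀ (by positivity)]
      linarith [ht.1]
    · rw [div_le_iff₀ (by positivity)]
      linarith [ht.2]
  have hφc : ContinuousOn φ (Set.Icc (-(8 * Real.pi)) (8 * Real.pi)) := by
    refine hl2c.comp (f := fun t : ℝ => ((t / (8 * Real.pi) : ℝ) : ℂ))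
      (Continuous.continuousOn ?_) hmem
    exact Complex.continuous_ofReal.comp (continuous_id.div_const _)
  have hφe : ∀ t ∈ Set.Icc (-(8 * Real.pi)) (8 * Real.pi),
      Complex.exp (φ t) = ξ 1 (Complex.exp (t * I)) := by
    intro t ht
    simp only [hφ]
    rw [hl2e _ (hmem t ht), Complex.ofReal_re]
    have : 8 * Real.pi * (t / (8 * Real.pi)) = t := by field_simp
    rw [this]
  have hne : ∀ t : ℝ, ξ 1 (Complex.exp (t * I)) ≠ 0 := fun t => hcon 1 h1b _ (hes t)
  -- evenness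
  have hper : ∀ t : ℝ, ξ 1 (Complex.exp ((t + Real.pi : ℝ) * I)) = ξ 1 (Complex.exp (t * I)) := by
    intro t
    have : Complex.exp ((t + Real.pi : ℝ) * I) = -Complex.exp (t * I) := by
      push_cast
      rw [add_mul, Complex.exp_add, Complex.exp_pi_mul_I]
      ring
    rw [this]
    exact hev 1 h1b _ (hes t)
  -- the increments of `φ` are constant
  have hinc : ∀ s ∈ Set.Icc (-(4 * Real.pi)) (-Real.pi), ∀ t ∈ Set.Icc (-(4 * Real.pi)) (-Real.pi),
      φ (s + Real.pi) - φ s = φ (t + Real.pi) - φ t := by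
    intro s hs t ht
    refine eq_of_exp_eq_one (a := -(4 * Real.pi)) (b := -Real.pi)
      (fun t => φ (t + Real.pi) - φ t) ?_ ?_ hs ht
    · refine ContinuousOn.sub ?_ (hφc.mono ?_)
      · refine hφc.comp (f := fun t : ℝ => t + Real.pi) (by fun_prop) ?_
        intro r hr
        constructor <;> simp only [Set.mem_Icc] at hr ⊢ <;> linarith [hr.1, hr.2]
      · intro r hr
        constructor <;> linarith [hr.1, hr.2]
    · intro r hr
      have a1 : r ∈ Set.Icc (-(8 * Real.pi)) (8 * Real.pi) := by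
        constructor <;> linarith [hr.1, hr.2]
      have a2 : r + Real.pi ∈ Set.Icc (-(8 * Real.pi)) (8 * Real.pi) := by
        constructor <;> linarith [hr.1, hr.2]
      rw [Complex.exp_sub, hφe _ a1, hφe _ a2, hper, div_self (hne r)]
  have h4 : φ 0 - φ (-(4 * Real.pi)) = 4 * (φ (-(3 * Real.pi)) - φ (-(4 * Real.pi))) := by
    have m4 : -(4 * Real.pi) ∈ Set.Icc (-(4 * Real.pi)) (-Real.pi) := ⟨le_rfl, by linarith⟩
    have m3 : -(3 * Real.pi) ∈ Set.Icc (-(4 * Real.pi)) (-Real.pi) :=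
      ⟨by linarith, by linarith⟩
    have m2 : -(2 * Real.pi) ∈ Set.Icc (-(4 * Real.pi)) (-Real.pi) :=
      ⟨by linarith, by linarith⟩
    have m1 : -Real.pi ∈ Set.Icc (-(4 * Real.pi)) (-Real.pi) := ⟨by linarith, le_rfl⟩
    have e3 := hinc _ m3 _ m4
    have e2 := hinc _ m2 _ m4
    have e1 := hinc _ m1 _ m4
    have q4 : -(4 * Real.pi) + Real.pi = -(3 * Real.pi) := by ring
    have q3 : -(3 * Real.pi) + Real.pi = -(2 * Real.pi) := by ring
    have q2 : -(2 * Real.pi) + Real.pi = -Real.pi := by ring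
    have q1 : -Real.pi + Real.pi = 0 := by ring
    rw [q4] at e3 e2 e1
    rw [q3] at e3
    rw [q2] at e2
    rw [q1] at e1
    linear_combination e1 + e2 + e3
  obtain ⟨k, hk⟩ : ∃ k : ℤ, φ (-(3 * Real.pi)) - φ (-(4 * Real.pi)) = k * (2 * Real.pi * I) := by
    rw [← Complex.exp_eq_one_iff, Complex.exp_sub, hφe _ ⟨by linarith, by linarith⟩,
      hφe _ ⟨by linarith, by linarith⟩]
    have := hper (-(4 * Real.pi))
    have q : -(4 * Real.pi) + Real.pi = -(3 * Real.pi) := by ring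
    rw [q] at this
    rw [this, div_self (hne _)]
  -- the circle
  have hcirc : lam (Complex.exp (((0 : ℝ) : ℂ) * I)) - 2 * ((0 : ℝ) : ℂ) * I - φ (-(2 * 0))
      = lam (Complex.exp (((2 * Real.pi : ℝ) : ℂ) * I)) - 2 * ((2 * Real.pi : ℝ) : ℂ) * I
        - φ (-(2 * (2 * Real.pi))) := by
    refine eq_of_exp_eq_one (a := 0) (b := 2 * Real.pi)
      (fun s : ℝ => lam (Complex.exp ((s : ℂ) * I)) - 2 * (s : ℂ) * I - φ (-(2 * s))) ?_ ?_
      ⟨le_rfl, by positivity⟩ ⟨by positivity, le_rfl⟩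
    · refine ContinuousOn.sub (ContinuousOn.sub ?_ (Continuous.continuousOn (by fun_prop))) ?_
      · exact (hlc.comp_continuous (f := fun s : ℝ => Complex.exp ((s : ℂ) * I)) (by fun_prop)
          heb).continuousOn
      · refine hφc.comp (f := fun s : ℝ => -(2 * s)) (by fun_prop) ?_
        intro r hr
        constructor <;> simp only [Set.mem_Icc] at hr ⊢ <;> linarith [hr.1, hr.2]
    · intro s hs
      have hn : ‖Complex.exp ((s : ℂ) * I)‖ = 1 := Complex.norm_exp_ofReal_mul_I s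
      have hm : -(2 * s) ∈ Set.Icc (-(8 * Real.pi)) (8 * Real.pi) := by
        constructor <;> linarith [hs.1, hs.2]
      have e1 := hb _ 1 hn norm_one
      have e2 : (Complex.exp ((s : ℂ) * I))⁻¹ ^ 2 * 1 = Complex.exp (((-(2 * s) : ℝ) : ℂ) * I) := by
        rw [mul_one, ← Complex.exp_neg, ← Complex.exp_nat_mul]
        congr 1
        push_cast
        ring
      have e3 : Complex.exp ((s : ℂ) * I) ^ 2 = Complex.exp (2 * (s : ℂ) * I) := by
        rw [← Complex.exp_nat_mul]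
        congr 1
        push_cast
        ring
      rw [e2, e3] at e1
      rw [Complex.exp_sub, Complex.exp_sub, hle _ (heb s), hφe _ hm]
      rw [e1, mul_div_cancel_left₀ _ (Complex.exp_ne_zero _), div_self (hne _)]
  have hx0 : Complex.exp (((0 : ℝ) : ℂ) * I) = 1 := by simp
  have hx1 : Complex.exp (((2 * Real.pi : ℝ) : ℂ) * I) = 1 := by
    push_cast
    exact Complex.exp_two_pi_mul_I
  rw [hx0, hx1] at hcirc
  have q0 : -(2 * (0 : ℝ)) = 0 := by ring
  have q1 : -(2 * (2 * Real.pi)) = -(4 * Real.pi) := by ring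
  rw [q0, q1] at hcirc
  rw [hk] at h4
  have h5 : (2 : ℂ) * k * (2 * Real.pi * I) * 2 = 2 * (2 * Real.pi * I) := by
    push_cast at hcirc
    linear_combination -hcirc - h4
  have h6 : (2 * Real.pi * I : ℂ) ≠ 0 := Complex.two_pi_I_ne_zero
  have h7 : ((4 * k : ℤ) : ℂ) = ((2 : ℤ) : ℂ) := by
    push_cast
    have : (4 * (k : ℂ) - 2) * (2 * Real.pi * I) = 0 := by linear_combination h5
    rcases mul_eq_zero.1 this with h | h
    · linear_combination h
    · exact absurd h h6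
  have h8 : (4 * k : ℤ) = 2 := by exact_mod_cast h7
  omega

end Pool.Agent.Helper30.S1
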